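import Pool.Agent.MP_542436_nt.H5.Defs

set_option autoImplicit false

namespace Pool.Agent.MP_542436_nt.H91

open Polynomial Pool.Agent.MP_542436_nt.H5

theorem big (K a : ℝ) (ha : 0 < a) : ∃ B0 : ℕ, 1 ≤ B0 ∧ ∀ B : ℕ, B0 ≤ B → K ≤ (B : ℝ) ^ a := by
  have h := ((tendsto_rpow_atTop ha).comp tendsto_natCast_atTop_atTop).eventually_ge_atTop K
  obtain ⟨B0, hB0⟩ := Filter.eventually_atTop.1 h
  exact ⟨max B0 1, le_max_right _ _, fun B hB => hB0 B (le_trans (le_max_left _ _) hB)⟩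

theorem mem_box {B : ℕ} {t : ℤ × ℤ} (h : t ∈ box B) :
    t.1 ∈ Finset.Icc (-(B : ℤ)) B ∧ t.2 ∈ Finset.Icc (-(B : ℤ)) B ∧ Int.gcd t.1 t.2 = 1 := by
  unfold H5.box at h
  rw [Finset.mem_filter, Finset.mem_product] at h
  exact ⟨h.1.1, h.1.2, h.2⟩

theorem lagr {ι : Type} [DecidableEq ι] (r : ℕ) (s : Finset ι) (v : ι → ℝ) (hs : s.card = r + 1)
    (P : ℝ[X]) (hP : P.natDegree ≤ r) (D M : ℝ) (hD : 0 < D)
    (hsep : ∀ i ∈ s, ∀ j ∈ s, i ≠ j → D ≤ |v i - v j|)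
    (hv : ∀ i ∈ s, |P.eval (v i)| < M) : |P.coeff r| * D ^ r < (r + 1) * M := by
  have hinj : Set.InjOn v s := by
    intro i hi j hj h
    by_contra hne
    have := hsep i hi j hj hne
    rw [h, sub_self, abs_zero] at this
    linarith
  have hdeg : P.degree < s.card := by
    rw [hs]
    exact lt_of_le_of_lt (degree_le_of_natDegree_le hP) (by exact_mod_cast Nat.lt_succ_self r)
  have h := Lagrange.coeff_eq_sum hinj hdeg
  rw [hs, Nat.add_sub_cancel] at h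
  have hDr : 0 < D ^ r := pow_pos hD r
  have hne : s.Nonempty := Finset.card_pos.1 (by omega)
  have h2 : |P.coeff r| < ∑ _i ∈ s, M / D ^ r := by
    rw [h]
    refine lt_of_le_of_lt (Finset.abs_sum_le_sum_abs _ _) (Finset.sum_lt_sum_of_nonempty hne ?_)
    intro i hi
    rw [abs_div, Finset.abs_prod]
    have h3 : D ^ r ≤ ∏ j ∈ s.erase i, |v i - v j| := by
      have h4 : ∏ _j ∈ s.erase i, D = D ^ r := by
        rw [Finset.prod_const, Finset.card_erase_of_mem hi, hs, Nat.add_sub_cancel]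
      rw [← h4]
      refine Finset.prod_le_prod (fun _ _ => hD.le) fun j hj => ?_
      exact hsep i hi j (Finset.mem_of_mem_erase hj) (Finset.ne_of_mem_erase hj).symm
    calc |P.eval (v i)| / ∏ j ∈ s.erase i, |v i - v j| ≤ |P.eval (v i)| / D ^ r :=
          div_le_div_of_nonneg_left (abs_nonneg _) hDr h3
      _ < M / D ^ r := div_lt_div_of_pos_right (hv i hi) hDr
  rw [Finset.sum_const, hs, nsmul_eq_mul, ← mul_div_assoc, lt_div_iff₀ hDr] at h2
  push_cast at h2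
  exact h2

theorem fibre (r : ℕ) (g : ℤ[X]) (y : ℤ) : ∃ P : ℝ[X], P.natDegree ≤ r ∧
    P.coeff r = (g.coeff r : ℝ) ∧ ∀ x : ℤ, P.eval (x : ℝ) = (hv g r (x, y) : ℝ) := by
  refine ⟨∑ k ∈ Finset.range (r + 1), monomial k ((g.coeff k : ℝ) * (y : ℝ) ^ (r - k)), ?_, ?_, ?_⟩
  · refine natDegree_sum_le_of_forall_le _ _ fun k hk => ?_
    exact (natDegree_monomial_le _).trans (by have := Finset.mem_range.1 hk; omega)
  · rw [finsetSum_coeff, Finset.sum_eq_single r]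
    · simp
    · intro k _ hk
      rw [coeff_monomial, if_neg hk]
    · intro h
      exact absurd (Finset.mem_range.2 (Nat.lt_succ_self r)) h
  · intro x
    rw [eval_finsetSum]
    unfold hv
    push_cast
    refine Finset.sum_congr rfl fun k _ => ?_
    rw [eval_monomial]
    ring

open Classical in
theorem arch_count (r B D : ℕ) (hD : 0 < D) (g : ℤ[X]) (hg : g.coeff r ≠ 0) (M : ℝ)
    (hM : (r + 1) * M ≤ (D : ℝ) ^ r) :
    ((box B).filter (fun t => |(hv g r t : ℝ)| < |(g.coeff r : ℝ)| * M)).card ≤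
      r * ((2 * B + 1) * D) := by
  have hc : (Finset.Icc (-(B : ℤ)) B ×ˢ Finset.Ico (0 : ℤ) D).card = (2 * B + 1) * D := by
    rw [Finset.card_product, Int.card_Icc, Int.card_Ico]
    congr 1
    omega
  rw [← hc]
  have hD' : (0 : ℤ) < D := by exact_mod_cast hD
  refine Finset.card_le_mul_card_image_of_maps_to (f := fun t : ℤ × ℤ => (t.2, t.1 % D)) ?_ r ?_
  · intro t ht
    have h := mem_box (Finset.mem_filter.1 ht).1
    exact Finset.mem_product.2 ⟨h.2.1, Finset.mem_Ico.2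
      ⟨Int.emod_nonneg _ hD'.ne', Int.emod_lt_of_pos _ hD'⟩⟩
  · rintro ⟨y, c⟩ _
    by_contra hlt
    obtain ⟨u, hu, hcard⟩ := Finset.exists_subset_card_eq (Nat.succ_le_of_lt (not_le.1 hlt))
    obtain ⟨P, hP, hlc, hev⟩ := fibre r g y
    have hmem : ∀ t ∈ u, |(hv g r t : ℝ)| < |(g.coeff r : ℝ)| * M ∧ t.2 = y ∧ t.1 % D = c := by
      intro t ht
      have h := Finset.mem_filter.1 (hu ht)
      have h2 := Prod.mk.inj h.2
      exact ⟨(Finset.mem_filter.1 h.1).2, h2.1, h2.2⟩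
    have key := lagr r u (fun t => (t.1 : ℝ)) hcard P hP D (|(g.coeff r : ℝ)| * M)
      (by exact_mod_cast hD) ?_ ?_
    · rw [hlc] at key
      have hpos : 0 < |(g.coeff r : ℝ)| := abs_pos.2 (by exact_mod_cast hg)
      nlinarith [mul_le_mul_of_nonneg_left hM hpos.le]
    · intro i hi j hj hne
      have h1 := hmem i hi
      have h2 := hmem j hj
      have h3 : i.1 - j.1 ≠ 0 := by
        intro h
        exact hne (Prod.ext (by omega) (h1.2.1.trans h2.2.1.symm))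
      have h4 : (D : ℤ) ∣ i.1 - j.1 :=
        Int.ModEq.dvd (show j.1 ≡ i.1 [ZMOD D] from h2.2.2.trans h1.2.2.symm)
      have h5 : (D : ℤ) ≤ |i.1 - j.1| := Int.le_of_dvd (abs_pos.2 h3) ((dvd_abs _ _).2 h4)
      exact_mod_cast h5
    · intro i hi
      have h1 := hmem i hi
      rw [hev, ← h1.2.1]
      exact h1.1

theorem arch : ArchStmt := by
  intro r η hη
  rcases Nat.eq_zero_or_pos r with rfl | hr
  · refine ⟨1, one_pos, 1, fun B hB g _ hg => ?_⟩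
    have hB1 : (1 : ℝ) ≤ B := by exact_mod_cast hB
    rw [Finset.filter_false_of_mem]
    · simp only [Finset.card_empty, Nat.cast_zero]
      positivity
    · intro t _
      have h1 : (B : ℝ) ^ (((0 : ℕ) : ℝ) - η) ≤ 1 :=
        Real.rpow_le_one_of_one_le_of_nonpos hB1 (by simp [hη.le])
      have h2 : hv g 0 t = g.coeff 0 := by simp [hv]
      rw [h2, not_lt]
      exact mul_le_of_le_one_right (abs_nonneg _) h1
  · have hr1 : (1 : ℝ) ≤ r := by exact_mod_cast hr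
    set e : ℝ := min η 1 / r with he
    have he0 : 0 < e := div_pos (lt_min hη one_pos) (by linarith)
    have he1 : e ≤ 1 := by
      rw [he, div_le_one (by linarith)]
      exact (min_le_right _ _).trans hr1
    have her : e * r = min η 1 := by rw [he]; field_simp
    obtain ⟨B0, hB01, hB0⟩ := big (3 * r * (r + 2)) (e / 2) (by linarith)
    refine ⟨e / 2, by linarith, B0, fun B hB g _ hg => ?_⟩
    have hB1 : (1 : ℝ) ≤ B := by exact_mod_cast hB01.trans hB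
    have hBp : (0 : ℝ) < B := by linarith
    have hx : 1 ≤ (B : ℝ) ^ (1 - e) := Real.one_le_rpow hB1 (by linarith)
    set D : ℕ := ⌈(r + 1) * (B : ℝ) ^ (1 - e)⌉₊ with hD
    have hD1 : (r + 1) * (B : ℝ) ^ (1 - e) ≤ D := Nat.le_ceil _
    have hD2 : (D : ℝ) ≤ (r + 2) * (B : ℝ) ^ (1 - e) := by
      have := (Nat.ceil_lt_add_one (show 0 ≤ (r + 1) * (B : ℝ) ^ (1 - e) by positivity)).le
      rw [← hD] at this
      linarith
    have hD0 : 0 < D := by
      have : (0 : ℝ) < D := lt_of_lt_of_le (by positivity) hD1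
      exact_mod_cast this
    have hM : (r + 1) * (B : ℝ) ^ ((r : ℝ) - η) ≤ (D : ℝ) ^ r := by
      have h1 : ((r + 1) * (B : ℝ) ^ (1 - e)) ^ r ≤ (D : ℝ) ^ r :=
        pow_le_pow_left₀ (by positivity) hD1 r
      refine le_trans ?_ h1
      rw [mul_pow, ← Real.rpow_mul_natCast hBp.le]
      refine mul_le_mul (le_self_pow₀ (by linarith) hr.ne') ?_ (by positivity) (by positivity)
      refine Real.rpow_le_rpow_of_exponent_le hB1 ?_
      have := min_le_left η 1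
      nlinarith
    have hc := arch_count r B D hD0 g hg _ hM
    have hc' : _ ≤ ((r * ((2 * B + 1) * D) : ℕ) : ℝ) := Nat.cast_le.2 hc
    refine le_trans (le_of_eq ?_) (hc'.trans ?_)
    · rfl
    · push_cast
      have h1 : (B : ℝ) ^ (2 - e / 2) = (B : ℝ) ^ (e / 2) * (B * (B : ℝ) ^ (1 - e)) := by
        rw [show 2 - e / 2 = e / 2 + (1 + (1 - e)) by ring, Real.rpow_add hBp, Real.rpow_add hBp,
          Real.rpow_one]
      rw [h1]
      calc (r : ℝ) * ((2 * B + 1) * D) ≤ r * ((3 * B) * ((r + 2) * (B : ℝ) ^ (1 - e))) := by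
            refine mul_le_mul_of_nonneg_left ?_ (by positivity)
            exact mul_le_mul (by linarith) hD2 (by positivity) (by positivity)
        _ = 3 * r * (r + 2) * (B * (B : ℝ) ^ (1 - e)) := by ring
        _ ≤ _ := mul_le_mul_of_nonneg_right (hB0 B hB) (by positivity)

theorem lattice (hS : SlopeStmt) (B d : ℕ) (hd : 0 < d) (x : ℤ) :
    (((box B).filter (fun t => ((d ^ 2 : ℕ) : ℤ) ∣ t.1 - x * t.2)).card : ℝ) ≤
      8 * (B : ℝ) ^ 2 * ((d : ℝ) ^ 2)⁻¹ + 4 := by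
  have hd' : (0 : ℝ) < d := by exact_mod_cast hd
  have h := hS 1 B ((d : ℝ) ^ 2) (by positivity)
    ((box B).filter (fun t => ((d ^ 2 : ℕ) : ℤ) ∣ t.1 - x * t.2)) (Finset.filter_subset _ _) ?_
  · refine h.trans (le_of_eq ?_)
    push_cast
    ring
  · intro f hf hne
    refine ⟨0, 1, ?_⟩
    have h0 := (Finset.mem_filter.1 (hf 0)).2
    have h1 := (Finset.mem_filter.1 (hf 1)).2
    have h2 : ((d ^ 2 : ℕ) : ℤ) ∣ dt (f 0) (f 1) := by
      have e : dt (f 0) (f 1) =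
          ((f 0).1 - x * (f 0).2) * (f 1).2 - ((f 1).1 - x * (f 1).2) * (f 0).2 := by
        unfold dt; ring
      rw [e]
      exact dvd_sub (h0.mul_right _) (h1.mul_right _)
    have h3 := Int.le_of_dvd (abs_pos.2 (hne 0 1 (by decide))) ((dvd_abs _ _).2 h2)
    exact_mod_cast h3

theorem fewB (hS : SlopeStmt) (hO : OmegaStmt) (hC : ClassStmt) : Few PB := by
  classical
  intro r c R η hr _ hη hη4
  obtain ⟨K, hK, hKn⟩ := hO r (η / 8) (by positivity) (by positivity)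
  obtain ⟨B0, hB01, hB0⟩ := big (20 * K) (η / 4) (by positivity)
  refine ⟨η / 4, by positivity, B0, fun B hB g D hA => ?_⟩
  have hB1 : (1 : ℝ) ≤ B := by exact_mod_cast hB01.trans hB
  have hBp : (0 : ℝ) < B := by linarith
  have hy : 1 ≤ (B : ℝ) ^ η := Real.one_le_rpow hB1 hη.le
  have hX : ∀ d : ℕ, ∃ Xs : Finset ℤ, 0 < d → IsCoprime (d : ℤ) D →
      Xs.card ≤ r ^ (d ^ 2).primeFactors.card ∧ ∀ t : ℤ × ℤ, Int.gcd t.1 t.2 = 1 →
        ((d ^ 2 : ℕ) : ℤ) ∣ hv g r t → ∃ x ∈ Xs, ((d ^ 2 : ℕ) : ℤ) ∣ t.1 - x * t.2 := by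
    intro d
    by_cases h : 0 < d ∧ IsCoprime (d : ℤ) D
    · obtain ⟨Xs, hXs⟩ := hC r g D (d ^ 2) (pow_pos h.1 2) hA.deg hA.lc_dvd hA.sep
        (by push_cast; exact h.2.pow_left)
      exact ⟨Xs, fun _ _ => hXs⟩
    · exact ⟨∅, fun h1 h2 => absurd ⟨h1, h2⟩ h⟩
  choose Xs hXs using hX
  set k : ℕ := ⌈(B : ℝ) ^ η⌉₊ - 1 with hk
  set n : ℕ := ⌊(B : ℝ) ^ (2 - η)⌋₊ + 1 with hn
  have hk1 : (B : ℝ) ^ η ≤ k + 1 := by
    have h1 : 1 ≤ ⌈(B : ℝ) ^ η⌉₊ := Nat.one_le_ceil_iff.2 (by linarith)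
    have h2 : k + 1 = ⌈(B : ℝ) ^ η⌉₊ := by omega
    have h3 := Nat.le_ceil ((B : ℝ) ^ η)
    rw [← h2] at h3
    exact_mod_cast h3
  set I : Finset ℕ := (Finset.Ioo k n).filter (fun d => IsCoprime (d : ℤ) D) with hI
  have hIm : ∀ d ∈ I, 0 < d ∧ IsCoprime (d : ℤ) D ∧ (d : ℝ) ≤ (B : ℝ) ^ (2 - η) := by
    intro d hd
    have h := Finset.mem_filter.1 hd
    have h1 := Finset.mem_Ioo.1 h.1
    refine ⟨by omega, h.2, ?_⟩
    exact (Nat.le_floor_iff (by positivity)).1 (by omega)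
  have hsub : (box B).filter (fun t => hv g r t ≠ 0 ∧ PB η B D (hv g r t)) ⊆
      I.biUnion (fun d => (Xs d).biUnion (fun x =>
        (box B).filter (fun t => ((d ^ 2 : ℕ) : ℤ) ∣ t.1 - x * t.2))) := by
    intro t ht
    obtain ⟨hb, _, d, hd1, hd2, hd3, hd4⟩ := Finset.mem_filter.1 ht
    have h1 : ⌈(B : ℝ) ^ η⌉₊ ≤ d := Nat.ceil_le.2 hd3
    have h0 : 1 ≤ ⌈(B : ℝ) ^ η⌉₊ := Nat.one_le_ceil_iff.2 (by linarith)
    have h2 : d ≤ ⌊(B : ℝ) ^ (2 - η)⌋₊ := Nat.le_floor hd4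
    have hdI : d ∈ I := Finset.mem_filter.2 ⟨Finset.mem_Ioo.2 ⟨by omega, by omega⟩, hd1⟩
    obtain ⟨x, hx, hxt⟩ := (hXs d (by omega) hd1).2 t (mem_box hb).2.2 (by push_cast; exact hd2)
    exact Finset.mem_biUnion.2 ⟨d, hdI, Finset.mem_biUnion.2 ⟨x, hx,
      Finset.mem_filter.2 ⟨hb, hxt⟩⟩⟩
  have hone : ∀ d ∈ I, (((Xs d).biUnion (fun x =>
      (box B).filter (fun t => ((d ^ 2 : ℕ) : ℤ) ∣ t.1 - x * t.2))).card : ℝ) ≤
      K * (B : ℝ) ^ (η / 2) * (8 * (B : ℝ) ^ 2 * ((d : ℝ) ^ 2)⁻¹ + 4) := by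
    intro d hd
    obtain ⟨h1, h2, h3⟩ := hIm d hd
    have h4 : ((Xs d).card : ℝ) ≤ K * (B : ℝ) ^ (η / 2) := by
      have h5 : ((Xs d).card : ℝ) ≤ (r : ℝ) ^ (d ^ 2).primeFactors.card := by
        exact_mod_cast (hXs d h1 h2).1
      refine h5.trans ((hKn (d ^ 2) (pow_pos h1 2).ne').trans ?_)
      refine mul_le_mul_of_nonneg_left ?_ hK.le
      have h6 : ((d ^ 2 : ℕ) : ℝ) ≤ (B : ℝ) ^ (4 : ℝ) := by
        have h7 : (d : ℝ) ≤ (B : ℝ) ^ (2 : ℝ) :=
          h3.trans (Real.rpow_le_rpow_of_exponent_le hB1 (by linarith))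
        push_cast
        rw [show (4 : ℝ) = 2 * (2 : ℕ) by norm_num, Real.rpow_mul_natCast hBp.le]
        exact pow_le_pow_left₀ (by positivity) h7 2
      calc ((d ^ 2 : ℕ) : ℝ) ^ (η / 8) ≤ ((B : ℝ) ^ (4 : ℝ)) ^ (η / 8) :=
            Real.rpow_le_rpow (by positivity) h6 (by positivity)
        _ = (B : ℝ) ^ (η / 2) := by
            rw [← Real.rpow_mul hBp.le]
            congr 1
            ring
    calc _ ≤ ((∑ x ∈ Xs d, ((box B).filter
            (fun t => ((d ^ 2 : ℕ) : ℤ) ∣ t.1 - x * t.2)).card : ℕ) : ℝ) :=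
          Nat.cast_le.2 Finset.card_biUnion_le
      _ ≤ ∑ _x ∈ Xs d, (8 * (B : ℝ) ^ 2 * ((d : ℝ) ^ 2)⁻¹ + 4) := by
          rw [Nat.cast_sum]
          exact Finset.sum_le_sum fun x _ => lattice hS B d h1 x
      _ ≤ _ := by
          rw [Finset.sum_const, nsmul_eq_mul]
          exact mul_le_mul_of_nonneg_right h4 (by positivity)
  have hs1 : ∑ d ∈ I, ((d : ℝ) ^ 2)⁻¹ ≤ 2 / (B : ℝ) ^ η := by
    calc ∑ d ∈ I, ((d : ℝ) ^ 2)⁻¹ ≤ ∑ d ∈ Finset.Ioo k n, ((d : ℝ) ^ 2)⁻¹ :=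
          Finset.sum_le_sum_of_subset_of_nonneg (Finset.filter_subset _ _)
            fun _ _ _ => by positivity
      _ ≤ 2 / (k + 1) := sum_Ioo_inv_sq_le k n
      _ ≤ _ := div_le_div_of_nonneg_left (by norm_num) (by linarith) hk1
  have hs2 : (I.card : ℝ) ≤ (B : ℝ) ^ (2 - η) := by
    have h1 : I.card ≤ ⌊(B : ℝ) ^ (2 - η)⌋₊ := by
      refine (Finset.card_filter_le _ _).trans ?_
      rw [Nat.card_Ioo]
      omega
    exact (Nat.cast_le.2 h1).trans (Nat.floor_le (by positivity))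
  have e1 : (B : ℝ) ^ 2 * (2 / (B : ℝ) ^ η) = 2 * (B : ℝ) ^ (2 - η) := by
    rw [Real.rpow_sub hBp, Real.rpow_two]
    ring
  have e2 : (B : ℝ) ^ (2 - η / 4) = (B : ℝ) ^ (η / 4) * ((B : ℝ) ^ (η / 2) * (B : ℝ) ^ (2 - η)) := by
    rw [← Real.rpow_add hBp, ← Real.rpow_add hBp]
    congr 1
    ring
  have hfin : ((I.biUnion (fun d => (Xs d).biUnion (fun x =>
      (box B).filter (fun t => ((d ^ 2 : ℕ) : ℤ) ∣ t.1 - x * t.2)))).card : ℝ) ≤
      (B : ℝ) ^ (2 - η / 4) := by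
    calc _ ≤ ((∑ d ∈ I, ((Xs d).biUnion (fun x => (box B).filter
            (fun t => ((d ^ 2 : ℕ) : ℤ) ∣ t.1 - x * t.2))).card : ℕ) : ℝ) :=
          Nat.cast_le.2 Finset.card_biUnion_le
      _ ≤ ∑ d ∈ I, K * (B : ℝ) ^ (η / 2) * (8 * (B : ℝ) ^ 2 * ((d : ℝ) ^ 2)⁻¹ + 4) := by
          rw [Nat.cast_sum]
          exact Finset.sum_le_sum hone
      _ = K * (B : ℝ) ^ (η / 2) *
            (8 * ((B : ℝ) ^ 2 * ∑ d ∈ I, ((d : ℝ) ^ 2)⁻¹) + 4 * I.card) := by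
          rw [← Finset.mul_sum, Finset.sum_add_distrib, ← Finset.mul_sum, Finset.sum_const,
            nsmul_eq_mul]
          ring
      _ ≤ K * (B : ℝ) ^ (η / 2) * (20 * (B : ℝ) ^ (2 - η)) := by
          refine mul_le_mul_of_nonneg_left ?_ (by positivity)
          have := mul_le_mul_of_nonneg_left hs1 (show 0 ≤ (B : ℝ) ^ 2 by positivity)
          rw [e1] at this
          linarith
      _ = 20 * K * ((B : ℝ) ^ (η / 2) * (B : ℝ) ^ (2 - η)) := by ring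
      _ ≤ _ := by
          rw [e2]
          exact mul_le_mul_of_nonneg_right (hB0 B hB) (by positivity)
  refine le_trans (Nat.cast_le.2 (Finset.card_le_card ?_)) hfin
  intro t ht
  exact hsub (Finset.mem_filter.2 (Finset.mem_filter.1 ht))

end Pool.Agent.MP_542436_nt.H91
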