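import Pool.Agent.MP_542436_nt.Sp.Spec

set_option autoImplicit false

namespace Pool.Agent.MP_542436_nt.H91

open Polynomial Finset Pool.Agent.MP_542436_nt.Sp

theorem inj : InjStmt := by
  classical
  intro S _ _ ρ κ _ _ A e0 h
  obtain ⟨g, hg⟩ := (Matrix.toLin' (A.map e0)).exists_leftInverse_of_injective
    (LinearMap.ker_eq_bot.2 h)
  have h1 : ∀ e : S →ₐ[ℂ] ℂ, e ((LinearMap.toMatrix' g).map (algebraMap ℂ S) * A).det =
      (LinearMap.toMatrix' g * A.map e).det := fun e => by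
    rw [AlgHom.map_det]
    congr 1
    ext i j
    simp [Matrix.mul_apply]
  refine ⟨((LinearMap.toMatrix' g).map (algebraMap ℂ S) * A).det, ?_, fun e he => ?_⟩
  · rw [h1, ← LinearMap.toMatrix'_toLin' (A.map e0), ← LinearMap.toMatrix'_comp, hg]
    simp
  · rw [h1] at he
    have h2 := Matrix.mulVec_injective_iff_isUnit.2
      ((Matrix.isUnit_iff_isUnit_det _).2 (Ne.isUnit he))
    refine Function.Injective.of_comp (f := (LinearMap.toMatrix' g).mulVec) ?_
    intro x y hxy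
    exact h2 (by simpa only [Function.comp, Matrix.mulVec_mulVec] using hxy)

theorem ex_zero {M N : ℕ} {f : ℂ[X][X]} (hd : Dg M N f)
    (h : ∀ (p : Fin M) (q : Fin N), cf f p q = 0) : f = 0 := by
  ext k i
  by_contra h1
  exact h1 (h ⟨i, (hd i k h1).1⟩ ⟨k, (hd i k h1).2⟩)

/-- The matrix of the order conditions. -/
noncomputable def exMat {S : Type} [CommRing S] (M N : ℕ) (r : Fin 7 → ℕ) (ω θ : Fin 7 → S) :
    Matrix ((i : Fin 7) × Fin (r i) × Fin (r i)) (Fin M × Fin N) S := fun x k =>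
  if (x.2.1 : ℕ) + 2 * x.2.2 < r x.1 then
    (((k.1 : ℕ).choose x.2.1 : S) * ω x.1 ^ ((k.1 : ℕ) - x.2.1)) *
      (((k.2 : ℕ).choose x.2.2 : S) * θ x.1 ^ ((k.2 : ℕ) - x.2.2)) else 0

theorem exMat_mulVec (hB : BaseStmt) {M N : ℕ} (r : Fin 7 → ℕ) (ω θ : Fin 7 → ℂ) {f : ℂ[X][X]}
    (hd : Dg M N f) : (exMat M N r ω θ).mulVec (fun k => cf f k.1 k.2) = 0 ↔
      ∀ i, Ord (ω i) (θ i) (r i) f := by
  have key : ∀ x, (exMat M N r ω θ).mulVec (fun k => cf f k.1 k.2) x =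
      if (x.2.1 : ℕ) + 2 * x.2.2 < r x.1 then tc M N (ω x.1) (θ x.1) f x.2.1 x.2.2 else 0 :=
    fun x => by
      simp only [Matrix.mulVec, dotProduct, exMat]
      split_ifs
      · rw [tc, Fintype.sum_prod_type, sum_range]
        refine sum_congr rfl fun a _ => ?_
        rw [sum_range]
        exact sum_congr rfl fun c _ => by ring
      · simp
  simp only [hB.ord_iff ℂ M N _ _ _ f hd, funext_iff, key]
  refine ⟨fun h i a j ha => ?_, fun h x => ?_⟩
  · simpa [ha] using h ⟨i, ⟨a, by omega⟩, ⟨j, by omega⟩⟩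
  · split_ifs with h1
    · exact h _ _ _ h1
    · rfl

theorem ex_bot_iff (hB : BaseStmt) (M N : ℕ) (r : Fin 7 → ℕ) (ω θ : Fin 7 → ℂ) :
    Vs M N r ω θ = ⊥ ↔ Function.Injective (exMat M N r ω θ).mulVec := by
  rw [← Matrix.coe_mulVecLin, ← LinearMap.ker_eq_bot, Submodule.eq_bot_iff, Submodule.eq_bot_iff]
  refine ⟨fun h v hv => ?_, fun h f hf => ?_⟩
  · set f : ℂ[X][X] := ∑ k : Fin M × Fin N, monomial k.2 (monomial k.1 (v k)) with hf
    have h1 : ∀ p q, cf f p q = ∑ k : Fin M × Fin N,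
        if (k.1 : ℕ) = p ∧ (k.2 : ℕ) = q then v k else 0 := fun p q => by
      simp only [cf, hf, finsetSum_coeff, coeff_monomial]
      refine sum_congr rfl fun k _ => ?_
      by_cases h2 : (k.2 : ℕ) = q <;> simp [h2, coeff_monomial]
    have h2 : (fun k : Fin M × Fin N => cf f k.1 k.2) = v := funext fun k => by
      rw [h1, sum_eq_single k]
      · simp
      · intro k' _ hk
        exact if_neg fun h => hk (Prod.ext (Fin.ext h.1) (Fin.ext h.2))
      · simp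
    have h3 : Dg M N f := fun p q hpq => by
      rw [h1] at hpq
      obtain ⟨k, -, hk⟩ := exists_ne_zero_of_sum_ne_zero hpq
      obtain ⟨rfl, rfl⟩ := (ite_ne_right_iff.1 hk).1
      exact ⟨k.1.2, k.2.2⟩
    have h4 := h f ⟨h3, (exMat_mulVec hB r ω θ h3).1 (h2.symm ▸ hv)⟩
    rw [← h2, h4]
    ext k
    simp [cf]
  · exact ex_zero hf.1 fun p q => congrFun (h _ ((exMat_mulVec hB r ω θ hf.1).2 hf.2)) (p, q)

theorem ex_move (hB : BaseStmt) {M N : ℕ} {r : Fin 7 → ℕ} {ω θ : Fin 7 → ℂ} (i : Fin 7)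
    (h : Vs M N r ω θ = ⊥) (B : Finset ℂ) :
    ∃ c, c ∉ B ∧ Vs M N r (Function.update ω i c) θ = ⊥ := by
  classical
  have key : ∀ c : ℂ, (exMat M N r (Function.update (fun j => C (ω j)) i X)
      fun j => C (θ j)).map (aeval c) = exMat M N r (Function.update ω i c) θ := fun c => by
    ext x k
    simp only [Matrix.map_apply, exMat, Function.update_apply]
    split_ifs <;> simp
  obtain ⟨Δ, h1, h2⟩ := inj ℂ[X] _ _ _ (aeval (ω i)) (by
    rw [key, Function.update_eq_self]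
    exact (ex_bot_iff hB M N r ω θ).1 h)
  have h3 : Δ ≠ 0 := fun h => h1 (by rw [h, map_zero])
  obtain ⟨c, hc⟩ := Infinite.exists_notMem_finset (B ∪ Δ.roots.toFinset)
  rw [mem_union, not_or, Multiset.mem_toFinset, mem_roots h3] at hc
  refine ⟨c, hc.1, (ex_bot_iff hB M N r _ θ).2 (key c ▸ h2 _ ?_)⟩
  simpa [coe_aeval_eq_eval] using hc.2

theorem ex_alg {a b c a' b' c' s₁ s₂ s₃ t₁ t₂ t₃ : ℂ} (hs₂ : s₁ ≠ s₂) (hs₃ : s₁ ≠ s₃)
    (ht : t₂ ≠ t₃)
    (E₁ : a + a' * t₁ + (b + b' * t₁) * s₁ + (c + c' * t₁) * s₁ ^ 2 = 0)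
    (E₂ : a + a' * t₂ + (b + b' * t₂) * s₂ + (c + c' * t₂) * s₂ ^ 2 = 0)
    (E₃ : a + a' * t₃ + (b + b' * t₃) * s₃ + (c + c' * t₃) * s₃ ^ 2 = 0)
    (D₁ : b + b' * t₁ + 2 * (c + c' * t₁) * s₁ = 0)
    (D₂ : b + b' * t₂ + 2 * (c + c' * t₂) * s₂ = 0)
    (D₃ : b + b' * t₃ + 2 * (c + c' * t₃) * s₃ = 0) : c + c' * t₁ = 0 := by
  have h : (c + c' * t₁) * ((t₂ - t₃) * ((s₁ - s₂) * (s₁ - s₃))) = 0 := by
    linear_combination (t₂ - t₃) * ((s₁ - (s₂ + s₃) / 2) * D₁ - E₁) +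
      (t₃ - t₁) * ((s₂ - (s₂ + s₃) / 2) * D₂ - E₂) + (t₁ - t₂) * ((s₃ - (s₂ + s₃) / 2) * D₃ - E₃)
  exact (mul_eq_zero.1 h).resolve_right (mul_ne_zero (sub_ne_zero.2 ht)
    (mul_ne_zero (sub_ne_zero.2 hs₂) (sub_ne_zero.2 hs₃)))

theorem ex_base (hB : BaseStmt) {r : Fin 7 → ℕ} {ω θ : Fin 7 → ℂ} (hθ : Function.Injective θ)
    {i j k : Fin 7} (hi : 2 ≤ r i) (hj : 2 ≤ r j) (hk : 2 ≤ r k) (hij : ω i ≠ ω j)
    (hik : ω i ≠ ω k) (hjk : ω j ≠ ω k) : Vs 3 2 r ω θ = ⊥ := by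
  refine (Submodule.eq_bot_iff _).2 fun f hf => ?_
  have E : ∀ i, 2 ≤ r i → cf f 0 0 + cf f 0 1 * θ i + (cf f 1 0 + cf f 1 1 * θ i) * ω i +
      (cf f 2 0 + cf f 2 1 * θ i) * ω i ^ 2 = 0 := fun i hi => by
    have := (hB.ord_iff ℂ 3 2 _ _ _ f hf.1).1 (hf.2 i) 0 0 (by omega)
    simp [tc, sum_range_succ] at this
    linear_combination this
  have D : ∀ i, 2 ≤ r i → cf f 1 0 + cf f 1 1 * θ i + 2 * (cf f 2 0 + cf f 2 1 * θ i) * ω i = 0 :=
    fun i hi => by
      have := (hB.ord_iff ℂ 3 2 _ _ _ f hf.1).1 (hf.2 i) 1 0 (by omega)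
      simp [tc, sum_range_succ] at this
      linear_combination this
  have t : ∀ {i j}, ω i ≠ ω j → θ i ≠ θ j := fun h h' => h (by rw [hθ h'])
  have c1 := ex_alg hij hik (t hjk) (E i hi) (E j hj) (E k hk) (D i hi) (D j hj) (D k hk)
  have c2 := ex_alg hij.symm hjk (t hik) (E j hj) (E i hi) (E k hk) (D j hj) (D i hi) (D k hk)
  have lin : ∀ {x y : ℂ}, x + y * θ i = 0 → x + y * θ j = 0 → x = 0 ∧ y = 0 := fun {x y} h h' => by
    have : y = 0 := (mul_eq_zero.1 (show y * (θ i - θ j) = 0 by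
      linear_combination h - h')).resolve_right (sub_ne_zero.2 (t hij))
    exact ⟨by simpa [this] using h, this⟩
  have b1 : cf f 1 0 + cf f 1 1 * θ i = 0 := by simpa [c1] using D i hi
  have b2 : cf f 1 0 + cf f 1 1 * θ j = 0 := by simpa [c2] using D j hj
  have a1 : cf f 0 0 + cf f 0 1 * θ i = 0 := by simpa [c1, b1] using E i hi
  have a2 : cf f 0 0 + cf f 0 1 * θ j = 0 := by simpa [c2, b2] using E j hj
  refine ex_zero hf.1 fun p q => ?_
  fin_cases p <;> fin_cases q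
  exacts [(lin a1 a2).1, (lin a1 a2).2, (lin b1 b2).1, (lin b1 b2).2, (lin c1 c2).1,
    (lin c1 c2).2]

/-- A position with the placed points as prescribed has dimension at most `b`. -/
def Pos (θ : Fin 7 → ℂ) (b M N : ℕ) (r : Fin 7 → ℕ) (pos : Fin 7 → Option ℕ) : Prop :=
  ∀ B : Finset ℂ, ∃ ω : Fin 7 → ℂ, (∀ i (a : ℕ), pos i = some a → ω i = a) ∧
    (∀ i, pos i = none → ω i ∉ B) ∧ Module.finrank ℂ (Vs M N r ω θ) ≤ b

/-- The checker of scripts: `(0, _, a)` vertical, `(1, i, c)` horizontal, `(2, i, a)` move. -/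
def run : List (ℕ × Fin 7 × ℕ) → ℕ → ℕ → ℕ → (Fin 7 → ℕ) → (Fin 7 → Option ℕ) → Bool
  | [], _, M, N, r, pos => M = 0 || N = 0 || (M = 3 && N = 2 && pos 4 = none && pos 5 = none &&
      pos 6 = none && 2 ≤ r 4 && 2 ≤ r 5 && 2 ≤ r 6)
  | (0, _, a) :: l, b, M + 1, N, r, pos =>
      N ≤ ∑ i, (if pos i = some a then (r i + 1) / 2 else 0) &&
        run l b M N (fun i => if pos i = some a then r i - 1 else r i) pos
  | (1, i, c) :: l, b, M, N + 1, r, pos =>
      M - r i ≤ c && c ≤ b && run l (b - c) M N (fun j => if j = i then r j - 2 else r j) pos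
  | (2, i, a) :: l, 0, M, N, r, pos => pos i = none && run l 0 M N r (Function.update pos i (some a))
  | _, _, _, _, _, _ => false

theorem run_sound (hB : BaseStmt) (hH : HorStmt) {θ : Fin 7 → ℂ} (hθ : Function.Injective θ)
    (l : List (ℕ × Fin 7 × ℕ)) (b M N : ℕ) (r : Fin 7 → ℕ) (pos : Fin 7 → Option ℕ)
    (h : run l b M N r pos = true) : Pos θ b M N r pos := by
  classical
  fun_induction run l b M N r pos with
  | case1 b M N r pos =>
    intro B
    set e := B.finite_toSet.infinite_compl.natEmbedding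
    refine ⟨fun i => (pos i).elim (e i) Nat.cast, fun i a hi => by simp [hi],
      fun i hi h => (e i).2 (by simpa [hi] using h), ?_⟩
    simp only [Bool.or_eq_true, Bool.and_eq_true, decide_eq_true_eq] at h
    rcases h with (rfl | rfl) | ⟨⟨⟨⟨⟨⟨⟨rfl, rfl⟩, h4⟩, h5⟩, h6⟩, r4⟩, r5⟩, r6⟩
    · exact (hH.triv _ _ _ _ _ _).trans (by simp)
    · exact (hH.triv _ _ _ _ _ _).trans (by simp)
    · rw [ex_base hB hθ r4 r5 r6] <;> simp [h4, h5, h6, Subtype.coe_inj]
  | case2 i a l b M N r pos ih =>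
    simp only [Bool.and_eq_true, decide_eq_true_eq] at h
    intro B
    obtain ⟨ω, h1, h2, h3⟩ := ih h.2 (insert (a : ℂ) B)
    have h4 : ∀ i, ω i = a ↔ pos i = some a := fun i => by
      refine ⟨fun h4 => ?_, h1 i a⟩
      rcases hp : pos i with _ | a'
      · exact absurd (h4 ▸ mem_insert_self _ _) (h2 i hp)
      · rw [Nat.cast_injective ((h1 i a' hp).symm.trans h4)]
    refine ⟨ω, h1, fun i hi h => h2 i hi (mem_insert_of_mem h), ?_⟩
    have h5 := hH.vert _ M N r ω θ a hθ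
    simp only [h4] at h5
    rw [Nat.sub_eq_zero_of_le (by convert h.1), zero_add] at h5
    have h6 : (fun i => if ω i = a then r i - 1 else r i) =
        fun i => if pos i = some a then r i - 1 else r i := funext fun i => by simp only [h4]
    rw [h6] at h5
    exact h5.trans h3
  | case3 i c l b M N r pos ih =>
    simp only [Bool.and_eq_true, decide_eq_true_eq] at h
    intro B
    obtain ⟨ω, h1, h2, h3⟩ := ih h.2 B
    refine ⟨ω, h1, h2, (hH.hor _ M N r ω θ i hθ).trans ?_⟩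
    have h4 := add_le_add h.1.1 h3
    rw [Nat.add_sub_cancel' h.1.2] at h4
    convert h4
  | case4 i a l M N r pos ih =>
    simp only [Bool.and_eq_true, decide_eq_true_eq] at h
    intro B
    obtain ⟨ω, h1, h2, h3⟩ := ih h.2 B
    have := hH.fin _ M N r ω θ
    obtain ⟨c, hc, h4⟩ := ex_move hB i (Submodule.finrank_eq_zero.1 (Nat.le_zero.1 h3)) B
    refine ⟨Function.update ω i c, fun j a' hj => ?_, fun j hj => ?_, by rw [h4]; simp⟩
    · have h5 : j ≠ i := fun h5 => by simp [h5, h.1] at hj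
      rw [Function.update_of_ne h5]
      exact h1 j a' (by rwa [Function.update_of_ne h5])
    · rcases eq_or_ne j i with rfl | h5
      · simpa using hc
      · rw [Function.update_of_ne h5]
        exact h2 j (by rwa [Function.update_of_ne h5])
  | case5 => simp at h

theorem ex (hB : BaseStmt) (hH : HorStmt) : ExStmt := by
  intro θ hθ
  have key : ∀ l M N r pos, run l 0 M N r pos = true → ∃ ω, Vs M N r ω θ = ⊥ :=
    fun l M N r pos h => by
      obtain ⟨ω, -, -, h⟩ := run_sound hB hH hθ l 0 M N r pos h ∅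
      have := hH.fin _ M N r ω θ
      exact ⟨ω, Submodule.finrank_eq_zero.1 (Nat.le_zero.1 h)⟩
  refine ⟨fun c hc => ?_, ?_⟩
  · simp only [list0, List.mem_cons, List.not_mem_nil, or_false] at hc
    rcases hc with rfl | rfl | rfl | rfl | rfl | rfl
    · exact key [(0, 0, 0), (0, 0, 0), (0, 0, 1), (0, 0, 1)] _ _ _
        ![some 0, some 0, some 1, some 1, none, none, none] (by decide +kernel)
    · exact key [(0, 0, 0), (0, 0, 0), (1, 3, 0), (1, 4, 0), (1, 5, 0)] _ _ _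
        ![some 0, some 0, some 0, none, none, none, none] (by decide +kernel)
    · exact key [(0, 0, 0), (2, 2, 0), (0, 0, 0), (0, 0, 0), (2, 3, 0), (0, 0, 0), (2, 4, 0),
        (0, 0, 0), (1, 5, 0), (1, 6, 0), (0, 0, 0), (0, 0, 0), (1, 5, 0)] _ _ _
        ![some 0, some 0, none, none, none, none, none] (by decide +kernel)
    · exact key [(0, 0, 0), (2, 2, 0), (0, 0, 0), (0, 0, 1), (2, 5, 1), (0, 0, 1), (1, 6, 0),
        (0, 0, 0), (0, 0, 1), (1, 2, 0), (1, 5, 0), (1, 6, 0)] _ _ _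
        ![some 0, some 0, none, some 1, some 1, none, none] (by decide +kernel)
    · exact key [(0, 0, 0), (0, 0, 0), (2, 2, 0), (0, 0, 0), (0, 0, 0), (0, 0, 1), (0, 0, 1),
        (1, 5, 0), (1, 6, 0), (0, 0, 1), (0, 0, 1), (1, 2, 0), (1, 5, 0)] _ _ _
        ![some 0, some 0, none, some 1, some 1, none, none] (by decide +kernel)
    · exact key [(0, 0, 0), (0, 0, 0), (2, 6, 0), (0, 0, 0), (0, 0, 0), (1, 3, 0), (1, 4, 0),
        (1, 5, 0), (0, 0, 1), (0, 0, 1), (1, 6, 0), (1, 5, 0)] _ _ _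
        ![some 0, some 0, some 0, some 1, some 1, none, none] (by decide +kernel)
  · obtain ⟨ω, -, -, h⟩ := run_sound hB hH hθ [(0, 0, 0), (0, 0, 0), (1, 3, 1)] 1 5 3 (fun _ => 2)
      ![some 0, some 0, some 0, none, none, none, none] (by decide +kernel) ∅
    exact ⟨ω, h⟩

end Pool.Agent.MP_542436_nt.H91
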