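import Pool.Agent.MP_542436_nt.Sp.Spec
import Pool.Agent.MP_542436_nt.H87.S2
import Pool.Agent.MP_74e98a_nt.H25.Div

set_option autoImplicit false

namespace Pool.Agent.MP_542436_nt.H91

open Polynomial NumberField Finset Pool.Agent.MP_542436_nt.Sp

theorem r1_div {K : Type} [Field K] [CharZero K] (θ : K) (h : MvPolynomial (Fin 2 × Fin 7) ℤ)
    (Φ : Fin 5 × Fin 3 → MvPolynomial (Fin 2 × Fin 7) ℤ) (h0 : h ≠ 0)
    (hk : KerP θ fun k => h * Φ k) : KerP θ Φ := fun i hi => by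
  have h1 : MvPolynomial.map (Int.castRingHom K) h ≠ 0 := fun h2 =>
    h0 (MvPolynomial.map_injective _ (RingHom.injective_int _) (by simpa using h2))
  have h2 := hk i hi
  simp only [map_mul, mul_assoc, ← mul_sum] at h2
  simpa only [mul_assoc] using (mul_eq_zero.1 h2).resolve_left h1

theorem r1_eval {K : Type} [Field K] (θ : K) (Φ : Fin 5 × Fin 3 → MvPolynomial (Fin 2 × Fin 7) ℤ)
    (hk : KerP θ Φ) (u : Fin 2 × Fin 7 → ℤ) :
    KerEq θ (z0 θ u) (z1 θ u) fun k => ((MvPolynomial.eval u (Φ k) : ℤ) : K) := fun i hi => by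
  have h1 := congrArg (MvPolynomial.eval fun k => (u k : K)) (hk i hi)
  have h2 : ∀ e, MvPolynomial.eval (fun k => (u k : K)) (zz θ e) = el θ fun i => u (e, i) :=
    fun e => by simp [zz, el]
  have h3 : ∀ k, MvPolynomial.eval (fun k => (u k : K))
      (MvPolynomial.map (Int.castRingHom K) (Φ k)) = ((MvPolynomial.eval u (Φ k) : ℤ) : K) :=
    fun k => (MvPolynomial.map_eval (Int.castRingHom K) u (Φ k)).symm
  simpa only [map_sum, map_mul, map_pow, map_neg, map_natCast, MvPolynomial.eval_C, h2, h3,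
    map_zero, z0, z1] using h1

theorem r1_bad (hB : BaseStmt) {K : Type} [Field K] (θ ζ0 ζ1 : K) (h0 : ζ0 ≠ 0) (g : ℤ[X][X])
    (hd : Dg 5 3 g) (ho : Ord (-ζ1 / ζ0) θ 2 (up K g)) :
    KerEq θ ζ0 ζ1 fun k => ((cf g k.1 k.2 : ℤ) : K) := fun i hi => by
  have h1 : Dg 5 3 (up K g) := fun a c h => hd a c fun h' => h (by rw [hB.cf_up, h', Int.cast_zero])
  have h2 := (hB.ord_iff K 5 3 _ θ 2 _ h1).1 ho i 0 (by omega)
  rw [tc] at h2
  rw [Fintype.sum_prod_type, ← mul_zero (ζ0 ^ (4 - i)), ← h2, mul_sum, sum_range]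
  refine sum_congr rfl fun a _ => ?_
  rw [mul_sum, sum_range]
  refine sum_congr rfl fun c _ => ?_
  simp only [hB.cf_up, Nat.choose_zero_right, Nat.cast_one, one_mul, Nat.sub_zero]
  rcases lt_or_ge (a : ℕ) i with h | h
  · simp [Nat.choose_eq_zero_of_lt h]
  · rw [show 4 - i = 4 - a + (a - i) by omega, pow_add, div_pow]
    field_simp

theorem r1_prop {ι : Type} [Fintype ι] (φ ψ : ι → ℤ) (hφ : ∀ κ : ℤ, (∀ k, κ ∣ φ k) → IsUnit κ)
    (h : ∀ k k', φ k * ψ k' = φ k' * ψ k) : ∃ T : ℤ, ∀ k, ψ k = T * φ k := by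
  obtain ⟨l, hl⟩ := Finset.gcd_eq_sum_mul univ φ
  obtain ⟨v, hv⟩ := (hφ _ fun k => gcd_dvd (mem_univ k)).exists_left_inv
  refine ⟨v * ∑ k, ψ k * l k, fun k => ?_⟩
  rw [← one_mul (ψ k), ← hv, hl, mul_assoc, mul_assoc, sum_mul, sum_mul]
  congr 1
  exact sum_congr rfl fun j _ => by linear_combination l j * h j k

theorem r1_size {σ : Type} (R : MvPolynomial σ ℤ) : ∃ C : ℝ, 1 ≤ C ∧ ∀ (u : σ → ℤ) (M : ℝ),
    1 ≤ M → (∀ k, |(u k : ℝ)| ≤ M) →
      |((MvPolynomial.eval u R : ℤ) : ℝ)| ≤ C * M ^ R.totalDegree := by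
  refine ⟨1 + ∑ m ∈ R.support, |((R.coeff m : ℤ) : ℝ)|, le_add_of_nonneg_right (by positivity),
    fun u M hM hu => ?_⟩
  rw [MvPolynomial.eval_eq, add_mul, sum_mul]
  push_cast
  refine (abs_sum_le_sum_abs _ _).trans ((sum_le_sum fun m hm => ?_).trans
    (le_add_of_nonneg_left (by positivity)))
  rw [abs_mul, abs_prod]
  refine mul_le_mul_of_nonneg_left ?_ (abs_nonneg _)
  calc ∏ i ∈ m.support, |(u i : ℝ) ^ m i| ≤ ∏ i ∈ m.support, M ^ m i :=
        prod_le_prod (fun _ _ => abs_nonneg _) fun i _ => by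
          rw [abs_pow]
          exact pow_le_pow_left₀ (abs_nonneg _) (hu i) _
    _ ≤ _ := by
        rw [prod_pow_eq_pow_sum]
        exact pow_le_pow_right₀ hM (MvPolynomial.le_totalDegree hm)

theorem r1_divs (a ε : ℝ) (ha : 1 ≤ a) (hε : 0 < ε) : ∃ C : ℝ, 0 ≤ C ∧ ∀ n : ℕ, n ≠ 0 →
    ∑ t ∈ n.divisors, a ^ t.primeFactors.card ≤ C * (n : ℝ) ^ ε := by
  obtain ⟨C₁, h1, h2⟩ := H87.omega a (ε / 2) (by linarith) (half_pos hε)
  obtain ⟨C₂, h3, h4⟩ := MP_74e98a_nt.H25.divisor_bound (ε / 2) (half_pos hε)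
  refine ⟨C₂ * C₁, by positivity, fun n hn => ?_⟩
  have h5 : ∀ t ∈ n.divisors, a ^ t.primeFactors.card ≤ C₁ * (n : ℝ) ^ (ε / 2) := fun t ht =>
    (pow_le_pow_right₀ ha (card_le_card
      (Nat.primeFactors_mono (Nat.dvd_of_mem_divisors ht) hn))).trans (h2 n hn)
  refine (sum_le_card_nsmul _ _ _ h5).trans ?_
  rw [nsmul_eq_mul]
  calc _ ≤ C₂ * (n : ℝ) ^ (ε / 2) * (C₁ * (n : ℝ) ^ (ε / 2)) := by gcongr; exact h4 n
    _ = C₂ * C₁ * ((n : ℝ) ^ (ε / 2) * (n : ℝ) ^ (ε / 2)) := by ring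
    _ = _ := by rw [← Real.rpow_add (by positivity), add_halves]

/-- the box of the feet of the fibres. -/
noncomputable def r1_box (i0 : Fin 7) (a b : ℕ) : Finset (Fin 2 × Fin 7 → ℤ) :=
  Fintype.piFinset fun k => if k = (0, 0) then {0} else
    if k.1 = 0 ∨ k.2 = i0 then Icc (-(a : ℤ)) a else Icc (-(b : ℤ)) b

theorem r1_card (i0 : Fin 7) (a b : ℕ) :
    (r1_box i0 a b).card = (2 * a + 1) ^ 7 * (2 * b + 1) ^ 6 := by
  have h : ∀ a : ℕ, (Icc (-(a : ℤ)) a).card = 2 * a + 1 := fun a => by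
    rw [Int.card_Icc]
    omega
  rw [r1_box, Fintype.card_piFinset, Fintype.prod_prod_type, Fin.prod_univ_two]
  simp only [apply_ite card, h, card_singleton]
  fin_cases i0 <;> simp [Fin.prod_univ_seven] <;> ring

theorem r1_mem (i0 : Fin 7) {N0 N1 E : ℕ} (h : N0 ≤ N1) (e : Fin 2 × Fin 7 → ℤ)
    (he : e (0, 0) = 1) (hE : ∀ k, |e k| ≤ E) {u : Fin 2 × Fin 7 → ℤ} (hu : u ∈ pbox 7 i0 N0 N1) :
    u - u (0, 0) • e ∈ r1_box i0 ((1 + E) * N0) ((1 + E) * N1) := by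
  simp only [pbox, r1_box, Fintype.mem_piFinset] at hu ⊢
  intro k
  have h0 : |u (0, 0)| ≤ N0 := by simpa [abs_le] using hu (0, 0)
  have h1 : |u (0, 0) * e k| ≤ N0 * E := by
    rw [abs_mul]
    exact mul_le_mul h0 (hE k) (abs_nonneg _) (Nat.cast_nonneg _)
  have h2 : (N0 : ℤ) * E ≤ N1 * E := by gcongr
  have h3 := hu k
  rw [abs_le] at h1
  simp only [Pi.sub_apply, Pi.smul_apply, smul_eq_mul]
  split_ifs with h4 h5
  · simp [h4, he]
  · rw [if_pos h5, mem_Icc] at h3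
    push_cast
    rw [mem_Icc]
    constructor <;> linarith
  · rw [if_neg h5, mem_Icc] at h3
    push_cast
    rw [mem_Icc]
    constructor <;> linarith

theorem r1_le (i0 : Fin 7) {a b : ℕ} (h : a ≤ b) {u : Fin 2 × Fin 7 → ℤ}
    (hu : u ∈ r1_box i0 a b) (k : Fin 2 × Fin 7) : |(u k : ℝ)| ≤ b := by
  have h1 := Fintype.mem_piFinset.1 hu k
  have h2 : |u k| ≤ b := by
    split_ifs at h1
    · simp [mem_singleton.1 h1]
    · exact (abs_le.2 (mem_Icc.1 h1)).trans (by exact_mod_cast h)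
    · exact abs_le.2 (mem_Icc.1 h1)
  exact_mod_cast h2

theorem rare1 (hB : BaseStmt) (hZ : SZStmt) (hC : ContStmt) (hA : KerAStmt) (hKB : KerBStmt)
    (hKC : KerCStmt) : Rare1Stmt := by
  classical
  intro K _ _ d θ hθ ε hε
  by_cases hd : d = 7
  swap
  · refine ⟨0, le_rfl, fun i0 N0 N1 G _ _ _ => ?_⟩
    rw [filter_false_of_mem fun u _ h => hd h.2.1]
    simp
  subst hd
  obtain ⟨hex, Δ, hΔ, hA'⟩ := hA K θ hθ
  obtain ⟨Φ, U, R, k0, e, D, c, hΦ, he, hD, hc, hR, hU, hRe, hP⟩ :=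
    hKC _ _ ((0, 0) : Fin 2 × Fin 7) 10 (KerP θ) (r1_div θ) hex (hKB K θ hθ)
  obtain ⟨C₁, hC₁, h1⟩ := hZ 7 (Δ * MvPolynomial.map (Int.castRingHom ℂ) R) (mul_ne_zero hΔ
    fun h => hR (MvPolynomial.map_injective _ (RingHom.injective_int _) (by simpa using h)))
  obtain ⟨C₂, hC₂, h2⟩ := hC D c (by omega) hc
  obtain ⟨C₃, hC₃, h3⟩ := r1_size R
  have hδ : 0 < ε / (R.totalDegree + 1) := by positivity
  obtain ⟨C₄, hC₄, h4⟩ := r1_divs D _ (by exact_mod_cast (by omega : 1 ≤ D)) hδ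
  obtain ⟨E, hE⟩ : ∃ E : ℕ, ∀ k, |e k| ≤ E :=
    ⟨univ.sup fun k => (e k).natAbs, fun k => by
      rw [← Int.natCast_natAbs]
      exact_mod_cast le_sup (f := fun k => (e k).natAbs) (mem_univ k)⟩
  set δ := ε / (R.totalDegree + 1) with hδ'
  refine ⟨C₁ + (3 * (1 + E)) ^ 13 * (C₂ * (C₄ * (C₃ ^ δ * (1 + E) ^ ε))), by positivity,
    fun i0 N0 N1 G hN0 hN hG => ?_⟩
  have hN0' : (1 : ℝ) ≤ N0 := by exact_mod_cast hN0
  have hN1' : (1 : ℝ) ≤ N1 := by exact_mod_cast hN0.trans hN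
  have hE' : (1 : ℝ) ≤ 1 + E := le_add_of_nonneg_right (Nat.cast_nonneg E)
  set Gd := (pbox 7 i0 N0 N1).filter fun u => ∃ t ∈ (MvPolynomial.eval u R).natAbs.divisors,
    (t : ℤ) ∣ MvPolynomial.eval u (Φ k0) ∧
      |((MvPolynomial.eval u (Φ k0) : ℤ) : ℝ)| ≤ |((t : ℤ) : ℝ)| * G with hGd
  have e1 : (pbox 7 i0 N0 N1).filter (fun u => z0 θ u ≠ 0 ∧ Bad1 7 θ (om θ u) G) ⊆
      (pbox 7 i0 N0 N1).filter (fun u => MvPolynomial.eval (fun k => ((u k : ℤ) : ℂ))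
        (Δ * MvPolynomial.map (Int.castRingHom ℂ) R) = 0) ∪ Gd := fun u hu => by
    obtain ⟨hu, h0, -, g, g1, g2, g3, g4⟩ := mem_filter.1 hu
    rw [mem_union, or_iff_not_imp_left]
    intro h
    have h' := fun h' => h (mem_filter.2 ⟨hu, h'⟩)
    rw [map_mul] at h'
    have b1 : MvPolynomial.eval u R ≠ 0 := fun b => right_ne_zero_of_mul h'
      ((MvPolynomial.map_eval (Int.castRingHom ℂ) u R).symm.trans (by rw [b, map_zero]))
    obtain ⟨T, hT⟩ := r1_prop (fun k : Fin 5 × Fin 3 => cf g k.1 k.2)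
      (fun k => MvPolynomial.eval u (Φ k)) (fun κ hκ => g1 κ fun i k => by
        by_cases b : cf g i k = 0
        · simp [b]
        · exact hκ (⟨i, (g2 i k b).1⟩, ⟨k, (g2 i k b).2⟩))
      (hA' u (left_ne_zero_of_mul h') _ _ (r1_bad hB θ _ _ h0 g g2 g3) (r1_eval θ Φ hΦ u))
    refine mem_filter.2 ⟨hu, T.natAbs, Nat.mem_divisors.2 ⟨Int.natAbs_dvd_natAbs.2 ?_,
      Int.natAbs_ne_zero.2 b1⟩, Int.natAbs_dvd.2 ⟨_, hT k0⟩, ?_⟩
    · rw [← hU, map_sum]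
      exact dvd_sum fun k _ => by rw [map_mul]; exact Dvd.dvd.mul_left ⟨_, hT k⟩ _
    · rw [hT k0, Int.natCast_natAbs]
      push_cast
      rw [abs_abs, abs_mul]
      exact mul_le_mul_of_nonneg_left (g4 _ _) (abs_nonneg _)
  have e2 : ∀ b ∈ r1_box i0 ((1 + E) * N0) ((1 + E) * N1),
      ((Gd.filter fun u => u - u (0, 0) • e = b).card : ℝ) ≤
        C₂ * (C₄ * (C₃ ^ δ * (1 + E) ^ ε)) * (N1 : ℝ) ^ ε * G ^ ((1 : ℝ) / 10) := fun b hb => by
    obtain ⟨P, p1, p2, p3⟩ := hP b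
    set F := Gd.filter fun u => u - u (0, 0) • e = b with hF
    have b0 : ∀ u ∈ F, u = b + u (0, 0) • e := fun u hu => by
      rw [← (mem_filter.1 hu).2, sub_add_cancel]
    have b1 : F ⊆ (MvPolynomial.eval b R).natAbs.divisors.biUnion fun t => F.filter fun u =>
        (t : ℤ) ∣ P.eval (u (0, 0)) ∧ |((P.eval (u (0, 0)) : ℤ) : ℝ)| ≤ |((t : ℤ) : ℝ)| * G :=
      fun u hu => by
        obtain ⟨t, ht, ht'⟩ := (mem_filter.1 (mem_filter.1 hu).1).2
        rw [b0 u hu, hRe] at ht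
        exact mem_biUnion.2 ⟨t, ht, mem_filter.2 ⟨hu, by rwa [p3, ← b0 u hu]⟩⟩
    have b2 : ∀ t ∈ (MvPolynomial.eval b R).natAbs.divisors, ((F.filter fun u =>
        (t : ℤ) ∣ P.eval (u (0, 0)) ∧
          |((P.eval (u (0, 0)) : ℤ) : ℝ)| ≤ |((t : ℤ) : ℝ)| * G).card : ℝ) ≤
        C₂ * G ^ ((1 : ℝ) / 10) * (D : ℝ) ^ t.primeFactors.card := fun t ht => by
      rw [← card_image_of_injOn (f := fun u => u (0, 0)) fun u hu v hv h => by
        rw [b0 u (mem_filter.1 hu).1, b0 v (mem_filter.1 hv).1]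
        simp only at h
        simp [h]]
      refine (h2 P t G _ p1 p2 (by exact_mod_cast (Nat.pos_of_mem_divisors ht).ne') hG
        fun y hy => ?_).trans ?_
      · obtain ⟨u, hu, rfl⟩ := mem_image.1 hy
        exact (mem_filter.1 hu).2
      · rw [Int.natAbs_natCast, mul_right_comm]
        gcongr
        exact_mod_cast hD
    have b3 : (F.card : ℝ) ≤ C₂ * G ^ ((1 : ℝ) / 10) *
        ∑ t ∈ (MvPolynomial.eval b R).natAbs.divisors, (D : ℝ) ^ t.primeFactors.card := by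
      rw [mul_sum]
      refine le_trans ?_ (sum_le_sum b2)
      exact_mod_cast (card_le_card b1).trans card_biUnion_le
    rcases eq_or_ne (MvPolynomial.eval b R).natAbs 0 with b4 | b4
    · rw [b4, Nat.divisors_zero, sum_empty, mul_zero] at b3
      exact b3.trans (by positivity)
    have b5 : ((MvPolynomial.eval b R).natAbs : ℝ) ≤
        C₃ * ((1 + E) * N1) ^ (R.totalDegree + 1) := by
      have b6 : (1 : ℝ) ≤ (1 + E) * N1 := one_le_mul_of_one_le_of_one_le hE' hN1'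
      rw [Nat.cast_natAbs, Int.cast_abs]
      refine (h3 b _ b6 fun k => by
        simpa using r1_le i0 (Nat.mul_le_mul_left _ hN) hb k).trans ?_
      gcongr
      omega
    have b6 : ((MvPolynomial.eval b R).natAbs : ℝ) ^ δ ≤ C₃ ^ δ * (1 + E) ^ ε * (N1 : ℝ) ^ ε := by
      refine (Real.rpow_le_rpow (Nat.cast_nonneg _) b5 hδ.le).trans (le_of_eq ?_)
      rw [Real.mul_rpow (by positivity) (by positivity), ← Real.rpow_natCast,
        ← Real.rpow_mul (by positivity), hδ', Nat.cast_add_one, mul_div_cancel₀ _ (by positivity),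
        Real.mul_rpow (by positivity) (by positivity), mul_assoc]
    calc _ ≤ _ := b3
      _ ≤ C₂ * G ^ ((1 : ℝ) / 10) * (C₄ * (C₃ ^ δ * (1 + E) ^ ε * (N1 : ℝ) ^ ε)) := by
        gcongr
        exact (h4 _ b4).trans (by gcongr)
      _ = _ := by ring
  have e3 : (Gd.card : ℝ) ≤ (3 * (1 + E)) ^ 13 * ((N0 : ℝ) ^ 7 * (N1 : ℝ) ^ 6) *
      (C₂ * (C₄ * (C₃ ^ δ * (1 + E) ^ ε)) * (N1 : ℝ) ^ ε * G ^ ((1 : ℝ) / 10)) := by
    rw [card_eq_sum_card_fiberwise (f := fun u => u - u (0, 0) • e)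
      (t := r1_box i0 ((1 + E) * N0) ((1 + E) * N1))
      fun u hu => r1_mem i0 hN e he hE (mem_filter.1 hu).1]
    push_cast
    refine (sum_le_card_nsmul _ _ _ e2).trans ?_
    rw [nsmul_eq_mul, r1_card]
    refine mul_le_mul_of_nonneg_right ?_ (by positivity)
    push_cast
    calc _ ≤ (3 * ((1 + E) * N0)) ^ 7 * (3 * ((1 + (E : ℝ)) * N1)) ^ 6 := by
          gcongr <;> nlinarith
      _ = _ := by ring
  have e4 := h1 i0 N0 N1 hN0 hN
  have e5 : (1 : ℝ) ≤ (N1 : ℝ) ^ ε * G ^ ((1 : ℝ) / 10) :=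
    one_le_mul_of_one_le_of_one_le (Real.one_le_rpow hN1' hε.le) (Real.one_le_rpow hG (by norm_num))
  have e6 := le_mul_of_one_le_right (show 0 ≤ C₁ * ((N0 : ℝ) ^ 7 * (N1 : ℝ) ^ (7 - 1)) by
    positivity) e5
  have e7 := (Nat.cast_le (α := ℝ)).2 ((card_le_card e1).trans (card_union_le _ _))
  push_cast at e7
  simp only [Nat.add_one_sub_one] at e4 e6 ⊢
  linarith

end Pool.Agent.MP_542436_nt.H91
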